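import Pool.Agent.H870R4.Noz.Stmts

/-! Project H870-NOZ, task Pi (helper377). -/

set_option autoImplicit false

open MeasureTheory Set
open scoped ContDiff

namespace Pool.Agent.H377R4.Noz

/-- the squared derivative -/
noncomputable def G (δ t : ℝ) : ℝ := -2 * δ * Real.exp t * Real.sin t

/-- derivative of the first profile -/
noncomputable def F1 (δ t : ℝ) : ℝ := Real.sqrt (G δ (max t (-Real.pi)))

/-- derivative of the second profile, up to sign -/
noncomputable def F2 (δ t : ℝ) : ℝ := Real.sqrt (G δ (min t (2 * Real.pi)))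

noncomputable def P1 (δ l : ℝ) : ℝ := ∫ t in (-Real.pi)..l, F1 δ t

noncomputable def P2 (δ l : ℝ) : ℝ := ∫ t in l..(2 * Real.pi), F2 δ t

theorem cG (δ : ℝ) : Continuous (G δ) := by unfold G; fun_prop

theorem sG (δ : ℝ) : ContDiff ℝ ∞ (G δ) := by
  unfold G
  exact (contDiff_const.mul Real.contDiff_exp).mul Real.contDiff_sin

theorem cF1 (δ : ℝ) : Continuous (F1 δ) := by
  unfold F1
  exact ((cG δ).comp (continuous_id.max continuous_const)).sqrt

theorem cF2 (δ : ℝ) : Continuous (F2 δ) := by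
  unfold F2
  exact ((cG δ).comp (continuous_id.min continuous_const)).sqrt

theorem d1 (δ l : ℝ) : HasDerivAt (P1 δ) (F1 δ l) l :=
  intervalIntegral.integral_hasDerivAt_right ((cF1 δ).intervalIntegrable _ _)
    ((cF1 δ).stronglyMeasurableAtFilter _ _) (cF1 δ).continuousAt

theorem d2 (δ l : ℝ) : HasDerivAt (P2 δ) (-F2 δ l) l :=
  intervalIntegral.integral_hasDerivAt_left ((cF2 δ).intervalIntegrable _ _)
    ((cF2 δ).stronglyMeasurableAtFilter _ _) (cF2 δ).continuousAt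

theorem G1_pos {δ : ℝ} (hδ : 0 < δ) {t : ℝ} (h1 : -Real.pi < t) (h2 : t < 0) : 0 < G δ t := by
  unfold G
  have h3 : Real.sin t < 0 := Real.sin_neg_of_neg_of_neg_pi_lt h2 h1
  have h4 := Real.exp_pos t
  have h5 : 0 < δ * Real.exp t := mul_pos hδ h4
  nlinarith

theorem G1_nonneg {δ : ℝ} (hδ : 0 < δ) {t : ℝ} (h1 : -Real.pi ≤ t) (h2 : t ≤ 0) : 0 ≤ G δ t := by
  unfold G
  have h3 : Real.sin t ≤ 0 := Real.sin_nonpos_of_nonpos_of_neg_pi_le h2 h1
  have h4 := Real.exp_pos t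
  have h5 : 0 < δ * Real.exp t := mul_pos hδ h4
  nlinarith

theorem sin_shift (t : ℝ) : Real.sin t = Real.sin (t - 2 * Real.pi) := (Real.sin_sub_two_pi t).symm

theorem G2_pos {δ : ℝ} (hδ : 0 < δ) {t : ℝ} (h1 : Real.pi < t) (h2 : t < 2 * Real.pi) : 0 < G δ t := by
  unfold G
  have h3 : Real.sin t < 0 := by
    rw [sin_shift]
    exact Real.sin_neg_of_neg_of_neg_pi_lt (by linarith) (by linarith)
  have h4 := Real.exp_pos t
  have h5 : 0 < δ * Real.exp t := mul_pos hδ h4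
  nlinarith

theorem G2_nonneg {δ : ℝ} (hδ : 0 < δ) {t : ℝ} (h1 : Real.pi ≤ t) (h2 : t ≤ 2 * Real.pi) : 0 ≤ G δ t := by
  unfold G
  have h3 : Real.sin t ≤ 0 := by
    rw [sin_shift]
    exact Real.sin_nonpos_of_nonpos_of_neg_pi_le (by linarith) (by linarith)
  have h4 := Real.exp_pos t
  have h5 : 0 < δ * Real.exp t := mul_pos hδ h4
  nlinarith

theorem F1_zero {δ t : ℝ} (h : t ≤ -Real.pi) : F1 δ t = 0 := by
  unfold F1; rw [max_eq_right h]; unfold G; simp

theorem F2_zero {δ t : ℝ} (h : 2 * Real.pi ≤ t) : F2 δ t = 0 := by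
  unfold F2; rw [min_eq_right h]; unfold G; simp

theorem F1_nonneg (δ t : ℝ) : 0 ≤ F1 δ t := Real.sqrt_nonneg _
theorem F2_nonneg (δ t : ℝ) : 0 ≤ F2 δ t := Real.sqrt_nonneg _

theorem P1_zero (δ : ℝ) {l : ℝ} (h : l ≤ -Real.pi) : P1 δ l = 0 := by
  unfold P1
  rw [intervalIntegral.integral_congr (g := fun _ => (0 : ℝ))]
  · simp
  · intro t ht
    rw [uIcc_of_ge h] at ht
    exact F1_zero ht.2

theorem P2_zero (δ : ℝ) {l : ℝ} (h : 2 * Real.pi ≤ l) : P2 δ l = 0 := by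
  unfold P2
  rw [intervalIntegral.integral_congr (g := fun _ => (0 : ℝ))]
  · simp
  · intro t ht
    rw [uIcc_of_ge h] at ht
    exact F2_zero ht.1

theorem P1_nonneg (δ l : ℝ) : 0 ≤ P1 δ l := by
  by_cases h : l ≤ -Real.pi
  · rw [P1_zero δ h]
  · exact intervalIntegral.integral_nonneg (not_le.1 h).le (fun t _ => F1_nonneg δ t)

theorem P2_nonneg (δ l : ℝ) : 0 ≤ P2 δ l := by
  by_cases h : 2 * Real.pi ≤ l
  · rw [P2_zero δ h]
  · exact intervalIntegral.integral_nonneg (not_le.1 h).le (fun t _ => F2_nonneg δ t)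

theorem P1_pos {δ : ℝ} (hδ : 0 < δ) {l : ℝ} (h1 : -Real.pi < l) (h2 : l < 0) : 0 < P1 δ l := by
  unfold P1
  apply intervalIntegral.intervalIntegral_pos_of_pos_on ((cF1 δ).intervalIntegrable _ _) _ h1
  intro t ht
  unfold F1
  rw [max_eq_left ht.1.le]
  exact Real.sqrt_pos.2 (G1_pos hδ ht.1 (ht.2.trans h2))

theorem P2_pos {δ : ℝ} (hδ : 0 < δ) {l : ℝ} (h1 : Real.pi < l) (h2 : l < 2 * Real.pi) : 0 < P2 δ l := by
  unfold P2
  apply intervalIntegral.intervalIntegral_pos_of_pos_on ((cF2 δ).intervalIntegrable _ _) _ h2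
  intro t ht
  unfold F2
  rw [min_eq_left ht.2.le]
  exact Real.sqrt_pos.2 (G2_pos hδ (h1.trans ht.1) ht.2)

theorem P1_smooth {δ : ℝ} (hδ : 0 < δ) : ContDiffOn ℝ ∞ (P1 δ) (Ioo (-Real.pi) 0) := by
  rw [contDiffOn_infty_iff_deriv_of_isOpen isOpen_Ioo]
  refine ⟨fun x _ => (d1 δ x).differentiableAt.differentiableWithinAt, ?_⟩
  have h : ContDiffOn ℝ ∞ (fun t => Real.sqrt (G δ t)) (Ioo (-Real.pi) 0) :=
    (sG δ).contDiffOn.sqrt (fun x hx => (G1_pos hδ hx.1 hx.2).ne')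
  refine h.congr ?_
  intro x hx
  rw [(d1 δ x).deriv]
  unfold F1
  rw [max_eq_left hx.1.le]

theorem P2_smooth {δ : ℝ} (hδ : 0 < δ) : ContDiffOn ℝ ∞ (P2 δ) (Ioo Real.pi (2 * Real.pi)) := by
  rw [contDiffOn_infty_iff_deriv_of_isOpen isOpen_Ioo]
  refine ⟨fun x _ => (d2 δ x).differentiableAt.differentiableWithinAt, ?_⟩
  have h : ContDiffOn ℝ ∞ (fun t => -Real.sqrt (G δ t)) (Ioo Real.pi (2 * Real.pi)) :=
    ((sG δ).contDiffOn.sqrt (fun x hx => (G2_pos hδ hx.1 hx.2).ne')).neg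
  refine h.congr ?_
  intro x hx
  rw [(d2 δ x).deriv]
  unfold F2
  rw [min_eq_left hx.2.le]

/-- cut-off near the left throat -/
noncomputable def ψ1 (l : ℝ) : ℝ := Real.smoothTransition ((-(Real.pi / 8) - l) / (Real.pi / 8))
/-- cut-off near the right throat -/
noncomputable def ψ2 (l : ℝ) : ℝ := Real.smoothTransition ((l - 9 * Real.pi / 8) / (Real.pi / 8))

theorem s1 : ContDiff ℝ ∞ ψ1 := by
  unfold ψ1
  exact Real.smoothTransition.contDiff.comp ((contDiff_const.sub contDiff_id).div_const _)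

theorem s2 : ContDiff ℝ ∞ ψ2 := by
  unfold ψ2
  exact Real.smoothTransition.contDiff.comp ((contDiff_id.sub contDiff_const).div_const _)

theorem ψ1_one {l : ℝ} (h : l ≤ -(Real.pi / 4)) : ψ1 l = 1 := by
  unfold ψ1
  apply Real.smoothTransition.one_of_one_le
  have := Real.pi_pos
  rw [le_div_iff₀ (by positivity)]
  linarith

theorem ψ1_zero {l : ℝ} (h : -(Real.pi / 8) ≤ l) : ψ1 l = 0 := by
  unfold ψ1
  apply Real.smoothTransition.zero_of_nonpos
  have := Real.pi_pos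
  apply div_nonpos_of_nonpos_of_nonneg <;> linarith

theorem ψ2_one {l : ℝ} (h : 5 * Real.pi / 4 ≤ l) : ψ2 l = 1 := by
  unfold ψ2
  apply Real.smoothTransition.one_of_one_le
  have := Real.pi_pos
  rw [le_div_iff₀ (by positivity)]
  linarith

theorem ψ2_zero {l : ℝ} (h : l ≤ 9 * Real.pi / 8) : ψ2 l = 0 := by
  unfold ψ2
  apply Real.smoothTransition.zero_of_nonpos
  have := Real.pi_pos
  apply div_nonpos_of_nonpos_of_nonneg <;> linarith

theorem prod1_smooth {δ : ℝ} (hδ : 0 < δ) :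
    ContDiffOn ℝ ∞ (fun l => ψ1 l * P1 δ l) (Ioo (-Real.pi) (2 * Real.pi)) := by
  have hpi := Real.pi_pos
  intro x hx
  apply ContDiffAt.contDiffWithinAt
  by_cases h : x < 0
  · exact s1.contDiffAt.mul ((P1_smooth hδ).contDiffAt (Ioo_mem_nhds hx.1 h))
  · have hev : (fun l => ψ1 l * P1 δ l) =ᶠ[nhds x] fun _ => (0 : ℝ) := by
      filter_upwards [lt_mem_nhds (show -(Real.pi / 8) < x by linarith [not_lt.1 h])] with y hy
      rw [ψ1_zero hy.le, zero_mul]
    exact contDiffAt_const.congr_of_eventuallyEq hev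

theorem prod2_smooth {δ : ℝ} (hδ : 0 < δ) :
    ContDiffOn ℝ ∞ (fun l => ψ2 l * P2 δ l) (Ioo (-Real.pi) (2 * Real.pi)) := by
  have hpi := Real.pi_pos
  intro x hx
  apply ContDiffAt.contDiffWithinAt
  by_cases h : Real.pi < x
  · exact s2.contDiffAt.mul ((P2_smooth hδ).contDiffAt (Ioo_mem_nhds h hx.2))
  · have hev : (fun l => ψ2 l * P2 δ l) =ᶠ[nhds x] fun _ => (0 : ℝ) := by
      filter_upwards [gt_mem_nhds (show x < 9 * Real.pi / 8 by linarith [not_lt.1 h])] with y hy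
      rw [ψ2_zero hy.le, zero_mul]
    exact contDiffAt_const.congr_of_eventuallyEq hev

theorem taskPi : H870N.TaskPi := by
  intro δ hδ
  have hpi := Real.pi_pos
  refine ⟨P1 δ, P2 δ, fun l => ψ1 l * P1 δ l + ψ2 l * P2 δ l + (1 - ψ1 l - ψ2 l),
    ?_, ?_, ?_, fun l h => P1_zero δ h, fun l h => P2_zero δ h, P1_nonneg δ, P2_nonneg δ, ?_, ?_, ?_, ?_, ?_⟩
  · rw [contDiff_one_iff_deriv]
    refine ⟨fun x => (d1 δ x).differentiableAt, ?_⟩
    have : deriv (P1 δ) = F1 δ := funext fun x => (d1 δ x).deriv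
    rw [this]; exact cF1 δ
  · rw [contDiff_one_iff_deriv]
    refine ⟨fun x => (d2 δ x).differentiableAt, ?_⟩
    have : deriv (P2 δ) = fun x => -F2 δ x := funext fun x => (d2 δ x).deriv
    rw [this]; exact (cF2 δ).neg
  · exact ((prod1_smooth hδ).add (prod2_smooth hδ)).add
      (((contDiff_const.sub s1).sub s2).contDiffOn)
  · intro l h1 h2
    rw [(d1 δ l).deriv]
    unfold F1
    rw [max_eq_left h1, Real.sq_sqrt (G1_nonneg hδ h1 h2)]
    rfl
  · intro l h1 h2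
    rw [(d2 δ l).deriv, neg_sq]
    unfold F2
    rw [min_eq_left h2, Real.sq_sqrt (G2_nonneg hδ h1 h2)]
    rfl
  · intro l h1 h2
    show 0 < ψ1 l * P1 δ l + ψ2 l * P2 δ l + (1 - ψ1 l - ψ2 l)
    have a1 : 0 ≤ ψ1 l := Real.smoothTransition.nonneg _
    have a2 : 0 ≤ ψ2 l := Real.smoothTransition.nonneg _
    have a3 : ψ1 l ≤ 1 := Real.smoothTransition.le_one _
    have a4 : ψ2 l ≤ 1 := Real.smoothTransition.le_one _
    by_cases c1 : l < -(Real.pi / 8)
    · have z : ψ2 l = 0 := ψ2_zero (by linarith)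
      have q : 0 < P1 δ l := P1_pos hδ h1 (by linarith)
      rw [z]
      rcases a1.eq_or_lt with e | e
      · rw [← e]; norm_num
      · have : 0 < ψ1 l * P1 δ l := mul_pos e q
        linarith
    · have z1 : ψ1 l = 0 := ψ1_zero (not_lt.1 c1)
      rw [z1]
      by_cases c2 : 9 * Real.pi / 8 < l
      · have q : 0 < P2 δ l := P2_pos hδ (by linarith) h2
        rcases a2.eq_or_lt with e | e
        · rw [← e]; norm_num
        · have : 0 < ψ2 l * P2 δ l := mul_pos e q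
          linarith
      · rw [ψ2_zero (not_lt.1 c2)]; norm_num
  · intro l h1 h2
    show ψ1 l * P1 δ l + ψ2 l * P2 δ l + (1 - ψ1 l - ψ2 l) = P1 δ l
    rw [ψ1_one h2, ψ2_zero (by linarith)]; ring
  · intro l h1 h2
    show ψ1 l * P1 δ l + ψ2 l * P2 δ l + (1 - ψ1 l - ψ2 l) = P2 δ l
    rw [ψ2_one h1, ψ1_zero (by linarith)]; ring

end Pool.Agent.H377R4.Noz
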